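import Pool.Agent.helper82.LEQ.Spec
import Pool.Agent.helper65.QS.COI
import Pool.Agent.helper97.QS.LF1

/-! # Row lq:FIN: the final statement, in a quotient -/

set_option autoImplicit false

namespace LEQ

open scoped BigOperators
open QS (Lef EAb)

theorem FIN_sum {H : Type} [Group H] [Finite H] (L : Subgroup H) (U : Set H)
    (hU : ∀ x ∈ U, x ∈ L) (f : H → ℤ) :
    ∑ᶠ (u : L) (_ : (u : H) ∈ U), f (u : H) = ∑ u ∈ FS (fun u : H => u ∈ U), f u := by
  classical
  haveI : Fintype H := Fintype.ofFinite H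
  haveI : Fintype L := Fintype.ofFinite L
  rw [finsum_eq_sum_of_fintype]
  have h1 : ∀ u : L, (∑ᶠ (_ : (u : H) ∈ U), f (u : H)) = if (u : H) ∈ U then f (u : H) else 0 :=
    fun u => finsum_eq_if
  rw [Finset.sum_congr rfl fun u _ => h1 u]
  have h2 : ∑ u ∈ FS (fun u : H => u ∈ U), f u = ∑ x : H, if x ∈ U then f x else 0 := by
    rw [← Finset.sum_filter]
    refine Finset.sum_congr ?_ fun _ _ => rfl
    ext x
    rw [mem_FS]
    simp
  rw [h2]
  refine Finset.sum_of_injOn (fun u : L => (u : H)) (Subtype.val_injective.injOn)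
    (fun _ _ => by simp) (fun x _ hx => ?_) (fun _ _ => rfl)
  rw [if_neg]
  intro hxU
  exact hx ⟨⟨x, hU x hxU⟩, by simp, rfl⟩

theorem FIN (hTR : TR_stmt) (hMAIN : MAIN_stmt) : FIN_stmt := by
  intro G _ _ p hp V _ hV ι _ L hF U hU hA hB hC
  classical
  obtain ⟨y, hy⟩ := hMAIN (G ⧸ V) p hp ι L hF U hU (fun i => by
    have h1 := hA i
    have h2 : ∀ u : L i, Lef (L i) p u = Ls p (L i) (u : G ⧸ V) := fun u => hTR _ p (L i) u
    simp only [h2] at h1
    rwa [FIN_sum (L i) (U i) (hU.sub i) (fun x => Ls p (L i) x)] at h1)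
    (fun x hx1 hx2 hx3 => fun i => by
      obtain ⟨a, ha1, ha2⟩ := hB x hx1 hx2 hx3 i
      exact ⟨a, ha1, ha2⟩)
    (by
      obtain ⟨c, hc⟩ := hC
      refine ⟨c, c.2, ?_⟩
      rwa [← hTR _ p (Cc L) c])
  obtain ⟨g, rfl⟩ := QuotientGroup.mk_surjective y
  by_contra hcon
  push Not at hcon
  have h1 := QS.COI QS.LF1 G p hp V hV g
  have h2 : ∑ᶠ v : V, Lef G p (g * (v : G)) = 0 := by
    simp only [hcon, finsum_zero]
  rw [h2] at h1
  have h3 : (Nat.card V : ℤ) ≠ 0 := by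
    have : 0 < Nat.card V := Nat.card_pos
    exact_mod_cast this.ne'
  rcases mul_eq_zero.1 h1.symm with h4 | h4
  · exact h3 h4
  · exact hy h4

end LEQ
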